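import Pool.Agent.H89.Eu.TDefs
import Pool.Agent.H89.L.W5h93_EU_Fin
import Pool.Agent.H89.L.W5h38_TV_Few

/-!
# Universality for schemes with an action of a torus of complexity at most `n`
-/

set_option autoImplicit false

open CategoryTheory AlgebraicGeometry Pool.Agent.Y116.UV Pool.Agent.Z125.UN
  Pool.Agent.W5h68.SP Pool.Agent.W5h93.EU
open Pool.Agent.W5h38.TV (sparse_built cones_built)

universe v

namespace Pool.Agent.H89.Eu

open Pool.Agent.H914 Pool.Agent.H914.VarClass Pool.Agent.H914.VarClass.Obj
  Pool.Agent.H914.WeilCohomology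

lemma built_iff {k : Type} [Field k] (n : ℕ) (X : Sch k) :
    Built n X ↔ Pool.Agent.W5h38.TV.Built n X := by
  constructor
  · intro h
    induction h with
    | torus X h => exact .torus X h
    | iso X Y hX e _ ih => exact .iso X Y hX e ih
    | total Z X U i j hX ht _ _ h1 h2 => exact .total Z X U i j hX ht h1 h2
    | opened Z X U i j hX ht _ _ h1 h2 => exact .opened Z X U i j hX ht h1 h2
    | closed Z X U i j hX ht _ _ h1 h2 => exact .closed Z X U i j hX ht h1 h2
  · intro h
    induction h with
    | torus X h => exact .torus X h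
    | iso X Y hX e _ ih => exact .iso X Y hX e ih
    | total Z X U i j hX ht _ _ h1 h2 => exact .total Z X U i j hX ht h1 h2
    | opened Z X U i j hX ht _ _ h1 h2 => exact .opened Z X U i j hX ht h1 h2
    | closed Z X U i j hX ht _ _ h1 h2 => exact .closed Z X U i j hX ht h1 h2

/-- Sparse systems are built from torus schemes. -/
lemma sparse_built' {k : Type} [Field k] (n : ℕ) : Sparse (k := k) n (Built n) :=
  fun N c t f S b hf hS hc hb => (built_iff n _).mpr (sparse_built n N c t f S b hf hS hc hb)

/-- The inverse images of cones are built from torus schemes. -/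
lemma cones_built' {k : Type} [Field k] (n : ℕ) : Cones (k := k) n (Built n) :=
  fun m N r t g α b hg hd hb => (built_iff n _).mpr (cones_built n m N r t g α b hg hd hb)

section

variable {k : Type} [Field k] [PerfectField k] {P : Sch k → Prop} (hP : Bnd True P)
  {𝒱 : VarClass k} {n : ℕ}

include hP

/-- From the varieties of the class to the torus schemes. -/
theorem built_of_var (hM : HasModels 𝒱 n) (hX : ∀ X : 𝒱.Obj, DimLE X.V n → P (sch X.V))
    (X : Sch k) (h : Built n X) : P X :=
  (Pool.Agent.W5h38.TV.dim_iff hP n).mp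
    (fun X hX' _ hn => Pool.Agent.W5h93.EU.devissage hP hM hX X hX' hn) X ((built_iff n X).mp h)

/-- From the torus schemes to the varieties of the class. -/
theorem var_of_built (h : ∀ X : Sch k, Built n X → P X) (X : 𝒱.Obj) (hn : DimLE X.V n) :
    P (sch X.V) :=
  (Pool.Agent.W5h38.TV.dim_iff hP n).mpr (fun X hX => h X ((built_iff n X).mpr hX)) (sch X.V) (ft_sch X.V)
    (SmoothOfRelativeDimension.smooth X.V.dim X.V.str) hn.2

end

end Pool.Agent.H89.Eu
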